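import Pool.Agent.helper53.ORT.Spec

/-!
# Row ort:OBS: orthogonal bases of nondegenerate subspaces
-/

set_option autoImplicit false

namespace Pool.Agent.ORT

open Module Pool.Agent.GS

theorem OBS : OBS_stmt := by
  intro F V _ _ _ _ B hch hB H hH
  have h2 : (2 : F) ≠ 0 := Ring.two_ne_zero hch
  let _ : Invertible (2 : F) := invertibleOfNonzero h2
  let C : LinearMap.BilinForm F H := B.restrict H
  have hC : ∀ x y : H, C x y = B (x : V) (y : V) := fun x y => rfl
  have hs : LinearMap.IsSymm C := ⟨fun x y => by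
    rw [RingHom.id_apply, hC, hC, hB.symm]⟩
  obtain ⟨v, hv⟩ := LinearMap.BilinForm.exists_orthogonal_basis (B := C) hs
  rw [LinearMap.isOrthoᵢ_def] at hv
  have ho : ∀ i j, i ≠ j → B (v i : V) (v j : V) = 0 := fun i j hij => hv i j hij
  refine ⟨fun i => (v i : V), ⟨ho, ?_⟩, ?_⟩
  · intro i h0
    have hz : ((v i : H) : V) = 0 := by
      apply hH _ (v i).2
      intro y hy
      have hy' : (⟨y, hy⟩ : H) = ∑ j, v.repr ⟨y, hy⟩ j • v j := (v.sum_repr ⟨y, hy⟩).symm
      have hy2 : y = ∑ j, v.repr ⟨y, hy⟩ j • (v j : V) := by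
        have h3 := congrArg H.subtype hy'
        rw [map_sum] at h3
        exact h3
      rw [hy2, map_sum]
      refine Finset.sum_eq_zero fun j _ => ?_
      rw [map_smul, smul_eq_mul]
      by_cases hij : i = j
      · subst hij
        rw [h0, mul_zero]
      · rw [ho i j hij, mul_zero]
    exact v.ne_zero i (Subtype.ext hz)
  · have h1 : Set.range (fun i => (v i : V)) = H.subtype '' Set.range v := by
      rw [← Set.range_comp]
      rfl
    rw [h1, Submodule.span_image, v.span_eq, Submodule.map_top, Submodule.range_subtype]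

end Pool.Agent.ORT
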